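import Pool.Agent.H30.FCB.StE
import Pool.Agent.H30.FCB.Basic

open AlgebraicGeometry CategoryTheory Opposite TopologicalSpace

set_option backward.isDefEq.respectTransparency.types false

namespace FCB

namespace PMOD

section general

variable {A : Type} [CommRing A] [Algebra ℂ A] (𝒜 : ℕ → Submodule ℂ A) [GradedAlgebra 𝒜]
  {F : Type} [Field F]

/-- the localisation at a point of Proj -/
abbrev At (x : Proj 𝒜) : Type :=
  HomogeneousLocalization.AtPrime 𝒜 (HomogeneousIdeal.toIdeal (ProjectiveSpectrum.asHomogeneousIdeal x))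

/-- the value of a section at a point -/
noncomputable def vl (x : Proj 𝒜) : (Proj 𝒜).presheaf.stalk x →+* At 𝒜 x :=
  (Proj.stalkIso 𝒜 x).hom.hom

lemma vl_inj (x : Proj 𝒜) : Function.Injective (vl 𝒜 x) := by
  have : IsIso (Proj.stalkIso 𝒜 x).hom := inferInstance
  exact (ConcreteCategory.bijective_of_isIso (Proj.stalkIso 𝒜 x).hom).1

lemma vl_surj (x : Proj 𝒜) : Function.Surjective (vl 𝒜 x) :=
  (ConcreteCategory.bijective_of_isIso (Proj.stalkIso 𝒜 x).hom).2

/-- sections are locally fractions -/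
lemma loc (x : Proj 𝒜) (U : (Proj 𝒜).Opens) (hx : x ∈ U) (s : Γ(Proj 𝒜, U)) :
    ∃ (V : (Proj 𝒜).Opens) (_ : x ∈ V) (_ : V ≤ U) (i : ℕ) (r t : 𝒜 i)
      (ht : ∀ y ∈ V, (t : A) ∉ ProjectiveSpectrum.asHomogeneousIdeal y),
      ∀ (y : Proj 𝒜) (hy : y ∈ V) (hy' : y ∈ U),
        vl 𝒜 y ((Proj 𝒜).presheaf.germ U y hy' s) = HomogeneousLocalization.mk ⟨i, r, t, ht y hy⟩ := by
  obtain ⟨V, hxV, i, n, a, b, h, e⟩ := s.2 ⟨x, hx⟩
  refine ⟨V, hxV, fun y hy => i.le hy, n, a, b, fun y hy => h ⟨y, hy⟩, ?_⟩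
  intro y hy hy'
  exact (Proj.stalkIso'_germ 𝒜 U y hy' s).trans (e ⟨y, hy⟩)

end general

section cox

variable {R ι C : Type} {r : ℕ} [CommRing R] [IsDomain R] [Algebra ℂ R] [Fintype ι]
  (D : Cox R ι C r)

omit [IsDomain R] in
lemma zero_not (x : Proj D.verGr) : (0 : D.ver) ∉
    (HomogeneousIdeal.toIdeal (ProjectiveSpectrum.asHomogeneousIdeal x)).primeCompl := by
  intro h
  exact h (Submodule.zero_mem _)

omit [IsDomain R] in
lemma coeff_ne {m : ℕ} {t : D.ver} (ht : t ∈ D.verGr m) (h0 : t ≠ 0) :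
    (t : Polynomial R).coeff m ≠ 0 := by
  intro h
  apply h0
  apply Subtype.ext
  ext k
  by_cases hk : k = m
  · subst hk; simpa using h
  · simpa using ht k hk

/-- the embedding of the local rings -/
noncomputable def ev (h1 : S_EMBH) (x : Proj D.verGr) : At D.verGr x →+* FractionRing R :=
  (h1 R ι C r D _ (zero_not D x)).choose

lemma ev_inj (h1 : S_EMBH) (x : Proj D.verGr) : Function.Injective (ev D h1 x) :=
  (h1 R ι C r D _ (zero_not D x)).choose_spec.1

lemma ev_emb (h1 : S_EMBH) (x : Proj D.verGr) : D.IsEmb _ (ev D h1 x) :=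
  (h1 R ι C r D _ (zero_not D x)).choose_spec.2

lemma ev_mk (h1 : S_EMBH) (x : Proj D.verGr) (i : ℕ) (a b : D.verGr i)
    (hb : (b : D.ver) ∈
      (HomogeneousIdeal.toIdeal (ProjectiveSpectrum.asHomogeneousIdeal x)).primeCompl) :
    ev D h1 x (HomogeneousLocalization.mk ⟨i, a, b, hb⟩) =
      algebraMap R (FractionRing R) (((a : D.ver) : Polynomial R).coeff i) /
      algebraMap R (FractionRing R) (((b : D.ver) : Polynomial R).coeff i) := by
  have h := ev_emb D h1 x ⟨i, a, b, hb⟩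
  have hb0 : (b : D.ver) ≠ 0 := by
    intro h0
    rw [h0] at hb
    exact zero_not D x hb
  rw [eq_div_iff]
  · exact h
  · rw [Ne, FaithfulSMul.algebraMap_eq_zero_iff]
    exact coeff_ne D b.2 hb0

variable [IsIntegral (Proj D.verGr)]

/-- the embedding of the function field -/
noncomputable def emb (h1 : S_EMBH) : (Proj D.verGr).functionField →+* FractionRing R :=
  (ev D h1 (genericPoint (Proj D.verGr))).comp (vl D.verGr (genericPoint (Proj D.verGr)))

lemma key (h1 : S_EMBH) (x : Proj D.verGr) (U : (Proj D.verGr).Opens) (hx : x ∈ U)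
    [Nonempty U] (s : Γ(Proj D.verGr, U)) :
    emb D h1 ((Proj D.verGr).germToFunctionField U s) =
      ev D h1 x (vl D.verGr x ((Proj D.verGr).presheaf.germ U x hx s)) := by
  obtain ⟨V, hxV, hVU, i, a, b, hb, h⟩ := loc D.verGr x U hx s
  have hη : genericPoint (Proj D.verGr) ∈ V :=
    ((genericPoint_spec (Proj D.verGr)).mem_open_set_iff V.isOpen).2 ⟨x, trivial, hxV⟩
  have h2 := h x hxV hx
  have h3 := h _ hη (hVU hη)
  rw [h2, ev_mk]
  show ev D h1 (genericPoint (Proj D.verGr)) (vl D.verGr (genericPoint (Proj D.verGr)) _) = _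
  rw [Scheme.germToFunctionField]
  erw [h3]
  rw [ev_mk]

lemma emb_alg (h1 : S_EMBH) (x : Proj D.verGr) (z : (Proj D.verGr).presheaf.stalk x) :
    emb D h1 (algebraMap _ (Proj D.verGr).functionField z) = ev D h1 x (vl D.verGr x z) := by
  obtain ⟨U, hxU, s, rfl⟩ := (Proj D.verGr).presheaf.exists_germ_eq z
  have : Nonempty U := ⟨⟨x, hxU⟩⟩
  rw [← key D h1 x U hxU s]
  congr 1
  exact Scheme.algebraMap_germ_eq_germToFunctionField _ _ _

omit [IsIntegral (Proj D.verGr)] in
lemma bo_ne (h1 : S_EMBH) {m : ℕ} (f : D.ver) (hf : f ∈ D.verGr m) (hm : 0 < m) (h0 : f ≠ 0) :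
    Nonempty (Proj.basicOpen D.verGr f) := by
  have hz : (0 : D.ver) ∉ Submonoid.powers f := by
    rintro ⟨k, hk⟩
    exact pow_ne_zero k h0 hk
  obtain ⟨φ, -, -⟩ := h1 R ι C r D (Submonoid.powers f) hz
  have : Nontrivial (HomogeneousLocalization.Away D.verGr f) := φ.domain_nontrivial
  obtain ⟨p⟩ : Nonempty (PrimeSpectrum (HomogeneousLocalization.Away D.verGr f)) := inferInstance
  refine ⟨⟨Proj.awayι D.verGr f hf hm p, ?_⟩⟩
  rw [← Proj.opensRange_awayι D.verGr f hf hm]
  exact ⟨p, rfl⟩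

/-- the embedding of the sections on a basic open set -/
noncomputable def sec (h1 : S_EMBH) (f : D.ver) [Nonempty (Proj.basicOpen D.verGr f)] :
    Γ(Proj D.verGr, Proj.basicOpen D.verGr f) →+* FractionRing R :=
  (emb D h1).comp ((Proj D.verGr).germToFunctionField (Proj.basicOpen D.verGr f)).hom

lemma sec_inj (h1 : S_EMBH) (f : D.ver) [Nonempty (Proj.basicOpen D.verGr f)] :
    Function.Injective (sec D h1 f) :=
  (emb D h1).injective.comp (Scheme.germToFunctionField_injective _ _)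

lemma sec_emb (h1 : S_EMBH) (f : D.ver) [hne : Nonempty (Proj.basicOpen D.verGr f)] :
    D.IsEmb _ ((sec D h1 f).comp (Proj.awayToSection D.verGr f).hom) := by
  intro q
  obtain ⟨⟨x, hx⟩⟩ := id hne
  have h := key D h1 x _ hx (Proj.awayToSection D.verGr f (HomogeneousLocalization.mk q))
  have h2 : vl D.verGr x ((Proj D.verGr).presheaf.germ _ x hx
      (Proj.awayToSection D.verGr f (HomogeneousLocalization.mk q))) =
      HomogeneousLocalization.mk ⟨q.deg, q.num, q.den, Submonoid.powers_le.mpr hx q.den_mem⟩ :=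
    Proj.stalkIso'_germ D.verGr _ x hx _
  rw [h2] at h
  have h3 : ((sec D h1 f).comp (Proj.awayToSection D.verGr f).hom)
      (HomogeneousLocalization.mk q) = _ := h
  rw [h3]
  exact ev_emb D h1 x ⟨q.deg, q.num, q.den, Submonoid.powers_le.mpr hx q.den_mem⟩

end cox

section general2

variable {A : Type} [CommRing A] [Algebra ℂ A] (𝒜 : ℕ → Submodule ℂ A) [GradedAlgebra 𝒜]

lemma tsz {m : ℕ} (f : A) (f_deg : f ∈ 𝒜 m) (hm : 0 < m) :
    (Scheme.ΓSpecIso _).inv ≫ (Proj.toSpecZero 𝒜).appTop ≫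
      (Proj 𝒜).presheaf.map (homOfLE le_top : Proj.basicOpen 𝒜 f ⟶ ⊤).op =
    CommRingCat.ofHom (HomogeneousLocalization.fromZeroRingHom 𝒜 _) ≫
      Proj.awayToSection 𝒜 f := by
  have h := Proj.awayι_toSpecZero 𝒜 f f_deg hm
  rw [Proj.awayι, Category.assoc, Iso.inv_comp_eq, Proj.basicOpenIsoSpec_hom] at h
  have h2 := congrArg Scheme.Hom.appTop h
  rw [Scheme.Hom.comp_appTop, Scheme.Hom.comp_appTop] at h2
  have h3 := Proj.basicOpenToSpec_app_top 𝒜 f
  have h4 : (Proj.basicOpenToSpec 𝒜 f).appTop = (Scheme.ΓSpecIso _).hom ≫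
      Proj.awayToSection 𝒜 f ≫ (Proj.basicOpen 𝒜 f).topIso.inv := h3
  rw [h4, ← Category.assoc, Scheme.ΓSpecIso_naturality, Category.assoc] at h2
  have h5 := congrArg (fun m => (Scheme.ΓSpecIso _).inv ≫ m ≫ (Proj.basicOpen 𝒜 f).topIso.hom) h2
  simp only [Category.assoc, Iso.inv_hom_id_assoc, Iso.inv_hom_id, Category.comp_id] at h5
  rw [← h5]
  congr 2

end general2

lemma gen {X : Scheme.{0}} {A B : CommRingCat.{0}} (t : X ⟶ Spec B) (g : A ⟶ B) (U : X.Opens) :
    (Scheme.ΓSpecIso A).inv ≫ (t ≫ Spec.map g).appTop ≫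
      X.presheaf.map (homOfLE le_top : U ⟶ ⊤).op =
    g ≫ (Scheme.ΓSpecIso B).inv ≫ t.appTop ≫ X.presheaf.map (homOfLE le_top : U ⟶ ⊤).op := by
  rw [Scheme.Hom.comp_appTop, Category.assoc, ← Scheme.ΓSpecIso_inv_naturality_assoc]

section mono

variable {R ι C : Type} {r : ℕ} [CommRing R] [IsDomain R] [Algebra ℂ R] [Fintype ι]
  {D : Cox R ι C r}

lemma monoZ_sum (h : D.Laws) (s : Finset ι) (v : ι → ι → ℤ) (m : ι → ℕ) :
    ∏ j ∈ s, D.monoZ (v j) ^ m j = D.monoZ (∑ j ∈ s, m j • v j) := by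
  classical
  have hp : ∀ (k : ℕ) (n : ι → ℤ), D.monoZ n ^ k = D.monoZ (k • n) := by
    intro k n
    induction k with
    | zero => simp [Cox.monoZ_zero]
    | succ k ih => rw [pow_succ, ih, ← h.monoZ_add, succ_nsmul]
  induction s using Finset.induction_on with
  | empty => simp [Cox.monoZ_zero]
  | insert j s hj ih => rw [Finset.prod_insert hj, Finset.sum_insert hj, h.monoZ_add, ih, hp]

lemma co_eq [DecidableEq ι] (h : D.Laws) (c : C) (j : ι) :
    D.co c j = D.monoZ (Pi.single j 1 - D.σ c (D.deg j)) := by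
  rw [Cox.co, sub_eq_add_neg, h.monoZ_add, Cox.monoZ_single, zpow_one]

omit [IsDomain R] in
lemma verMono_add (m n : ι → ℕ) (a b : ℕ) (hm : D.wt m = a • D.L) (hn : D.wt n = b • D.L)
    (hmn : D.wt (m + n) = (a + b) • D.L) :
    D.verMono (m + n) (a + b) hmn = D.verMono m a hm * D.verMono n b hn := by
  apply Subtype.ext
  show Polynomial.monomial (a + b) (D.mono (m + n)) = Polynomial.monomial a (D.mono m) *
    Polynomial.monomial b (D.mono n)
  rw [Polynomial.monomial_mul_monomial, D.mono_add]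

omit [CommRing R] [IsDomain R] [Algebra ℂ R] in
lemma wt_nsm (k : ℕ) (n : ι → ℕ) (a : ℕ) (hn : D.wt n = a • D.L) :
    D.wt (k • n) = (k * a) • D.L := by
  rw [D.wt_nsmul, hn, smul_smul]

omit [IsDomain R] in
lemma verMono_pow (n : ι → ℕ) (a : ℕ) (hn : D.wt n = a • D.L) (k : ℕ) :
    D.verMono (k • n) (k * a) (wt_nsm k n a hn) = D.verMono n a hn ^ k := by
  apply Subtype.ext
  show Polynomial.monomial (k * a) (D.mono (k • n)) = ((D.verMono n a hn ^ k : D.ver) :
    Polynomial R)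
  rw [SubmonoidClass.coe_pow]
  show Polynomial.monomial (k * a) (D.mono (k • n)) = (Polynomial.monomial a (D.mono n)) ^ k
  rw [Polynomial.monomial_pow, D.mono_nsmul, mul_comm]

omit [IsDomain R] in
lemma verMono_mem (n : ι → ℕ) (a : ℕ) (hn : D.wt n = a • D.L) :
    D.verMono n a hn ∈ D.verGr a := by
  intro k hk
  show (Polynomial.monomial a (D.mono n)).coeff k = 0
  rw [Polynomial.coeff_monomial, if_neg (Ne.symm hk)]

omit [IsDomain R] in
lemma verMono_coeff (n : ι → ℕ) (a : ℕ) (hn : D.wt n = a • D.L) :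
    ((D.verMono n a hn : D.ver) : Polynomial R).coeff a = D.mono n := by
  show (Polynomial.monomial a (D.mono n)).coeff a = _
  rw [Polynomial.coeff_monomial, if_pos rfl]

variable (D) in
/-- units at a point -/
def un (h1 : S_EMBH) (x : Proj D.verGr) (a : FractionRing R) : Prop :=
  ∃ t : At D.verGr x, IsUnit t ∧ ev D h1 x t = a

lemma un_mul (h1 : S_EMBH) {x : Proj D.verGr} {a b : FractionRing R} (ha : un D h1 x a)
    (hb : un D h1 x b) : un D h1 x (a * b) := by
  obtain ⟨s, hs, rfl⟩ := ha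
  obtain ⟨t, ht, rfl⟩ := hb
  exact ⟨s * t, hs.mul ht, map_mul _ _ _⟩

lemma un_one (h1 : S_EMBH) {x : Proj D.verGr} : un D h1 x 1 := ⟨1, isUnit_one, map_one _⟩

lemma un_pow (h1 : S_EMBH) {x : Proj D.verGr} {a : FractionRing R} (ha : un D h1 x a) (k : ℕ) :
    un D h1 x (a ^ k) := by
  induction k with
  | zero => simpa using un_one h1
  | succ k ih => rw [pow_succ]; exact un_mul h1 ih ha

lemma un_prod (h1 : S_EMBH) {x : Proj D.verGr} (s : Finset ι) (a : ι → FractionRing R)
    (ha : ∀ j ∈ s, un D h1 x (a j)) : un D h1 x (∏ j ∈ s, a j) := by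
  classical
  induction s using Finset.induction_on with
  | empty => simpa using un_one h1
  | insert j s hj ih =>
    rw [Finset.prod_insert hj]
    exact un_mul h1 (ha j (Finset.mem_insert_self _ _))
      (ih fun i hi => ha i (Finset.mem_insert_of_mem hi))

lemma un_mono (h : D.Laws) (h1 : S_EMBH) (x : Proj D.verGr) (c c' : C)
    (hx : x ∈ Proj.basicOpen D.verGr (D.verMono (D.ν c) (D.d c) (h.ν_wt c)))
    (hx' : x ∈ Proj.basicOpen D.verGr (D.verMono (D.ν c') (D.d c') (h.ν_wt c')))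
    (n : ι → ℤ) (hn : D.wtZ n = 0) (hs : ∀ j, n j ≠ 0 → j ∈ D.u c ∨ j ∈ D.u c') :
    un D h1 x (D.monoZ n) := by
  classical
  set I := HomogeneousIdeal.toIdeal (ProjectiveSpectrum.asHomogeneousIdeal x) with hI
  have hp : I.IsPrime := x.isPrime
  set k : ℕ := ∑ j, (n j).natAbs with hk
  have hkj : ∀ j, (n j).natAbs ≤ k := fun j =>
    Finset.single_le_sum (f := fun j => (n j).natAbs) (fun _ _ => Nat.zero_le _) (Finset.mem_univ j)
  set N : ι → ℕ := k • D.ν c + k • D.ν c' with hN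
  set K : ℕ := k * D.d c + k * D.d c' with hK
  have hwN : D.wt N = K • D.L := by
    rw [hN, hK, D.wt_add, wt_nsm k _ _ (h.ν_wt c), wt_nsm k _ _ (h.ν_wt c'), add_smul]
  have hNn : ∀ j, (n j).natAbs ≤ N j := by
    intro j
    by_cases h0 : n j = 0
    · simp [h0]
    · refine (hkj j).trans ?_
      have hNj : N j = k * D.ν c j + k * D.ν c' j := by simp [hN]
      rw [hNj]
      rcases hs j h0 with h2 | h2
      · have := Nat.pos_of_ne_zero ((h.ν_supp c j).2 h2)
        nlinarith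
      · have := Nat.pos_of_ne_zero ((h.ν_supp c' j).2 h2)
        nlinarith
  set P : ι → ℕ := fun j => ((N j : ℤ) + n j).toNat with hP
  set Q : ι → ℕ := fun j => ((N j : ℤ) - n j).toNat with hQ
  have hPc : (fun j => (P j : ℤ)) = (fun j => (N j : ℤ)) + n := by
    funext j
    have := hNn j
    simp only [hP, Pi.add_apply]
    omega
  have hQc : (fun j => (Q j : ℤ)) = (fun j => (N j : ℤ)) - n := by
    funext j
    have := hNn j
    simp only [hQ, Pi.sub_apply]
    omega
  have hwP : D.wt P = K • D.L := by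
    rw [← D.wtZ_cast, hPc, D.wtZ_add, hn, add_zero, D.wtZ_cast, hwN]
  have hwQ : D.wt Q = K • D.L := by
    rw [← D.wtZ_cast, hQc, D.wtZ_sub, hn, sub_zero, D.wtZ_cast, hwN]
  have hNx : D.verMono N K hwN ∉ I := by
    intro hmem
    have e : D.verMono N K hwN = D.verMono (D.ν c) (D.d c) (h.ν_wt c) ^ k *
        D.verMono (D.ν c') (D.d c') (h.ν_wt c') ^ k := by
      rw [← verMono_pow, ← verMono_pow]
      exact verMono_add _ _ _ _ _ _ hwN
    rw [e] at hmem
    rcases hp.mem_or_mem hmem with h2 | h2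
    · exact hx (hp.mem_of_pow_mem k h2)
    · exact hx' (hp.mem_of_pow_mem k h2)
  have hPx : D.verMono P K hwP ∉ I := by
    intro hmem
    have hw2 : D.wt (P + Q) = (K + K) • D.L := by rw [D.wt_add, hwP, hwQ, ← add_smul]
    have hw3 : D.wt (N + N) = (K + K) • D.L := by rw [D.wt_add, hwN, ← add_smul]
    have hPQ : P + Q = N + N := by
      funext j
      have := hNn j
      simp only [hP, hQ, Pi.add_apply]
      omega
    have e : D.verMono P K hwP * D.verMono Q K hwQ =
        D.verMono N K hwN * D.verMono N K hwN := by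
      rw [← verMono_add P Q K K hwP hwQ hw2, ← verMono_add N N K K hwN hwN hw3]
      congr 1
    have h2 : D.verMono N K hwN * D.verMono N K hwN ∈ I := by
      rw [← e]
      exact I.mul_mem_right _ hmem
    rcases hp.mem_or_mem h2 with h3 | h3 <;> exact hNx h3
  obtain ⟨t, ht⟩ : ∃ t : At D.verGr x, ev D h1 x t = D.monoZ n := by
    refine ⟨HomogeneousLocalization.mk ⟨K, ⟨_, verMono_mem P K hwP⟩, ⟨_, verMono_mem N K hwN⟩,
      hNx⟩, ?_⟩
    rw [ev_mk, verMono_coeff, verMono_coeff, ← Cox.monoZ_cast, ← Cox.monoZ_cast,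
      ← h.monoZ_sub, hPc]
    congr 1
    abel
  obtain ⟨s, hs⟩ : ∃ t : At D.verGr x, ev D h1 x t = D.monoZ (-n) := by
    refine ⟨HomogeneousLocalization.mk ⟨K, ⟨_, verMono_mem N K hwN⟩, ⟨_, verMono_mem P K hwP⟩,
      hPx⟩, ?_⟩
    rw [ev_mk, verMono_coeff, verMono_coeff, ← Cox.monoZ_cast, ← Cox.monoZ_cast,
      ← h.monoZ_sub, hPc]
    congr 1
    abel
  refine ⟨t, ⟨⟨t, s, ?_, ?_⟩, rfl⟩, ht⟩
  · apply ev_inj D h1 x
    rw [map_mul, map_one, ht, hs, ← h.monoZ_add, add_neg_cancel, Cox.monoZ_zero]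
  · apply ev_inj D h1 x
    rw [map_mul, map_one, ht, hs, ← h.monoZ_add, neg_add_cancel, Cox.monoZ_zero]

lemma un_inter (h : D.Laws) (h1 : S_EMBH) (x : Proj D.verGr) (c c' : C)
    (hx : x ∈ Proj.basicOpen D.verGr (D.verMono (D.ν c) (D.d c) (h.ν_wt c))) :
    x ∈ Proj.basicOpen D.verGr (D.verMono (D.ν c') (D.d c') (h.ν_wt c')) ↔
      ∀ j ∈ D.u c', un D h1 x (D.co c j) := by
  classical
  constructor
  · intro hx' j hj
    rw [co_eq h]
    refine un_mono h h1 x c c' hx hx' _ ?_ ?_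
    · rw [D.wtZ_sub, D.wtZ_single, h.σ_wt, one_smul, sub_self]
    · intro i hi
      by_cases hij : i = j
      · exact Or.inr (hij ▸ hj)
      · left
        refine h.σ_supp c (D.deg j) i ?_
        intro h0
        apply hi
        simp [Pi.single_eq_of_ne hij, h0]
  · intro hu
    set I := HomogeneousIdeal.toIdeal (ProjectiveSpectrum.asHomogeneousIdeal x) with hI
    have hp : I.IsPrime := x.isPrime
    set m : ι → ℕ := D.d c • D.ν c' with hm
    set n : ι → ℕ := D.d c' • D.ν c with hn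
    have hwm : D.wt m = (D.d c * D.d c') • D.L := wt_nsm _ _ _ (h.ν_wt c')
    have hwn0 : D.wt n = (D.d c' * D.d c) • D.L := wt_nsm _ _ _ (h.ν_wt c)
    have hwn : D.wt n = (D.d c * D.d c') • D.L := by rw [hwn0, mul_comm]
    -- the product of the coordinates
    have hprod : un D h1 x (∏ j ∈ D.u c', D.co c j ^ m j) :=
      un_prod h1 _ _ fun j hj => un_pow h1 (hu j hj) _
    have e1 : ∏ j ∈ D.u c', D.co c j ^ m j =
        D.monoZ ((fun j => (m j : ℤ)) - D.σ c ((D.d c * D.d c') • D.L)) := by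
      simp_rw [co_eq h]
      rw [monoZ_sum h]
      congr 1
      have hsum : ∀ (g : ι → (ι → ℤ)), ∑ j ∈ D.u c', m j • g j = ∑ j, m j • g j := by
        intro g
        refine Finset.sum_subset (Finset.subset_univ _) fun j _ hj => ?_
        have : m j = 0 := by
          by_contra h0
          apply hj
          rw [← h.ν_supp c' j]
          intro h2
          apply h0
          simp [hm, h2]
        rw [this, zero_smul]
      rw [hsum]
      simp_rw [smul_sub]
      rw [Finset.sum_sub_distrib]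
      congr 1
      · funext i
        rw [Finset.sum_apply, Finset.sum_eq_single i]
        · simp
        · intro j _ hj
          simp [Pi.single_eq_of_ne (Ne.symm hj)]
        · simp
      · rw [← hwm, Cox.wt, map_sum]
        refine Finset.sum_congr rfl fun j _ => ?_
        rw [map_zsmul, natCast_zsmul]
    have e2 : un D h1 x (D.monoZ (D.σ c ((D.d c * D.d c') • D.L) - fun j => (n j : ℤ))) := by
      refine un_mono h h1 x c c hx hx _ ?_ ?_
      · rw [D.wtZ_sub, h.σ_wt, D.wtZ_cast, hwn, sub_self]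
      · intro j hj
        left
        by_cases h0 : D.σ c ((D.d c * D.d c') • D.L) j = 0
        · rw [← h.ν_supp c j]
          intro h2
          apply hj
          rw [Pi.sub_apply, h0]
          simp [hn, h2]
        · exact h.σ_supp c _ j h0
    rw [e1] at hprod
    obtain ⟨t, ht, hte⟩ := un_mul h1 hprod e2
    rw [← h.monoZ_add, sub_add_sub_cancel, h.monoZ_sub, Cox.monoZ_cast, Cox.monoZ_cast] at hte
    have hnx : D.verMono n _ hwn ∉ I := by
      intro hmem
      have e : D.verMono n _ hwn = D.verMono (D.ν c) (D.d c) (h.ν_wt c) ^ D.d c' := by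
        rw [← verMono_pow]
        congr 1
        rw [mul_comm]
      rw [e] at hmem
      exact hx (hp.mem_of_pow_mem _ hmem)
    have et : t = HomogeneousLocalization.mk ⟨_, ⟨_, verMono_mem m _ hwm⟩,
        ⟨_, verMono_mem n _ hwn⟩, hnx⟩ := by
      apply ev_inj D h1 x
      rw [hte, ev_mk, verMono_coeff, verMono_coeff]
    have hmx : D.verMono m _ hwm ∉ I := by
      intro hmem
      have ht2 : IsUnit (HomogeneousLocalization.val t) :=
        (HomogeneousLocalization.isUnit_iff_isUnit_val D.verGr I t).2 ht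
      rw [et] at ht2
      have ht3 : IsUnit (IsLocalization.mk' (Localization I.primeCompl)
          (D.verMono m _ hwm) (⟨D.verMono n _ hwn, hnx⟩ : I.primeCompl)) := by
        rw [← Localization.mk_eq_mk']
        exact ht2
      exact (IsLocalization.AtPrime.isUnit_mk'_iff _ I _ _).1 ht3 hmem
    intro hmem
    apply hmx
    have e : D.verMono m _ hwm = D.verMono (D.ν c') (D.d c') (h.ν_wt c') ^ D.d c := by
      rw [← verMono_pow]
    rw [e]
    exact Ideal.pow_mem_of_mem I hmem _ (h.dpos c)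

end mono

section final

variable {R ι C : Type} {r : ℕ} [CommRing R] [IsDomain R] [Algebra ℂ R] [Fintype ι]
  {D : Cox R ι C r} [IsIntegral (Proj D.verGr)]

omit [IsIntegral (Proj D.verGr)] in
lemma f_ne (h : D.Laws) (c : C) : D.verMono (D.ν c) (D.d c) (h.ν_wt c) ≠ 0 := by
  intro h0
  have h2 := verMono_coeff (D := D) (D.ν c) (D.d c) (h.ν_wt c)
  rw [h0] at h2
  exact h.mono_ne (D.ν c) (by simpa using h2.symm)

omit [IsIntegral (Proj D.verGr)] in
lemma U_ne (h : D.Laws) (h1 : S_EMBH) (c : C) :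
    Nonempty (Proj.basicOpen D.verGr (D.verMono (D.ν c) (D.d c) (h.ν_wt c))) :=
  bo_ne D h1 _ (verMono_mem _ _ _) (h.dpos c) (f_ne h c)

lemma sec_range (h : D.Laws) (h1 : S_EMBH) (h2 : S_AWCH) (c : C)
    [Nonempty (Proj.basicOpen D.verGr (D.verMono (D.ν c) (D.d c) (h.ν_wt c)))]
    (f : FractionRing R) : f ∈ D.chart c ↔ ∃ s, sec D h1 (D.verMono (D.ν c) (D.d c) (h.ν_wt c)) s =
      f := by
  rw [h2 R ι C r D h c _ (sec_emb D h1 _) f]
  constructor
  · rintro ⟨y, hy⟩
    exact ⟨_, hy⟩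
  · rintro ⟨s, hs⟩
    have hb : Function.Surjective (Proj.awayToSection D.verGr
        (D.verMono (D.ν c) (D.d c) (h.ν_wt c))) := by
      have hi : IsIso (Proj.awayToSection D.verGr (D.verMono (D.ν c) (D.d c) (h.ν_wt c))) := by
        rw [← Proj.basicOpenIsoAway_hom D.verGr _ (verMono_mem _ _ _) (h.dpos c)]
        infer_instance
      exact (ConcreteCategory.bijective_of_isIso _).2
    obtain ⟨y, rfl⟩ := hb s
    exact ⟨y, hs⟩

omit [IsDomain R] [IsIntegral (Proj D.verGr)] in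
lemma str_res (h : D.Laws) (c : C) :
    (Scheme.ΓSpecIso (.of ℂ)).inv ≫ Scheme.Hom.appTop (X := Proj D.verGr) D.projStr ≫
      (Proj D.verGr).presheaf.map (homOfLE le_top : Proj.basicOpen D.verGr
        (D.verMono (D.ν c) (D.d c) (h.ν_wt c)) ⟶ ⊤).op =
    CommRingCat.ofHom (algebraMap ℂ (D.verGr 0)) ≫
      CommRingCat.ofHom (R := D.verGr 0) (S := HomogeneousLocalization.Away D.verGr
        (D.verMono (D.ν c) (D.d c) (h.ν_wt c)))
        (HomogeneousLocalization.fromZeroRingHom D.verGr (Submonoid.powers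
          (D.verMono (D.ν c) (D.d c) (h.ν_wt c)))) ≫
      Proj.awayToSection D.verGr (D.verMono (D.ν c) (D.d c) (h.ν_wt c)) := by
  have hs := tsz D.verGr (D.verMono (D.ν c) (D.d c) (h.ν_wt c)) (verMono_mem _ _ _) (h.dpos c)
  refine (gen (Proj.toSpecZero D.verGr) (CommRingCat.ofHom (algebraMap ℂ (D.verGr 0)))
    (Proj.basicOpen D.verGr (D.verMono (D.ν c) (D.d c) (h.ν_wt c)))).trans ?_
  rw [hs]

lemma emb_C (h : D.Laws) (h1 : S_EMBH) [Nonempty C] (z : ℂ) :
    emb D h1 (ffHom (X := Proj D.verGr) D.projStr z) = algebraMap ℂ (FractionRing R) z := by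
  obtain ⟨c⟩ := (inferInstance : Nonempty C)
  set f := D.verMono (D.ν c) (D.d c) (h.ν_wt c) with hf
  have hne : Nonempty (Proj.basicOpen D.verGr f) := U_ne h h1 c
  have hη : genericPoint (Proj D.verGr) ∈ Proj.basicOpen D.verGr f := by
    obtain ⟨⟨x, hx⟩⟩ := hne
    exact ((genericPoint_spec (Proj D.verGr)).mem_open_set_iff (Proj.basicOpen D.verGr f).isOpen).2
      ⟨x, trivial, hx⟩
  have hs := str_res h c
  have e1 : ffHom (X := Proj D.verGr) D.projStr z =
      (Proj D.verGr).germToFunctionField (Proj.basicOpen D.verGr f)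
        (Proj.awayToSection D.verGr f (HomogeneousLocalization.fromZeroRingHom D.verGr _
          (algebraMap ℂ (D.verGr 0) z))) := by
    have h3 : (Proj D.verGr).presheaf.map (homOfLE le_top : Proj.basicOpen D.verGr f ⟶ ⊤).op
        (Scheme.Hom.appTop (X := Proj D.verGr) D.projStr ((Scheme.ΓSpecIso (.of ℂ)).inv z)) =
        Proj.awayToSection D.verGr f (HomogeneousLocalization.fromZeroRingHom D.verGr
          (Submonoid.powers f) (algebraMap ℂ (D.verGr 0) z)) :=
      congrArg (fun m => (ConcreteCategory.hom m) z) hs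
    rw [← h3]
    show _ = (Proj D.verGr).presheaf.germ _ _ hη _
    rw [TopCat.Presheaf.germ_res_apply]
    show (Proj D.verGr).presheaf.germ ⊤ _ trivial ((Proj D.verGr).presheaf.map _ _) = _
    rw [TopCat.Presheaf.germ_res_apply]
    rfl
  rw [e1]
  have h4 := sec_emb D h1 f ⟨0, algebraMap ℂ (D.verGr 0) z, ⟨1, SetLike.GradedOne.one_mem⟩,
    Submonoid.one_mem _⟩
  have h5 : ((((⟨1, SetLike.GradedOne.one_mem⟩ : D.verGr 0) : D.ver) : Polynomial R).coeff 0) =
      1 := by
    show (1 : Polynomial R).coeff 0 = 1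
    simp
  have h6 : (((algebraMap ℂ (D.verGr 0) z : D.verGr 0) : D.ver) : Polynomial R).coeff 0 =
      algebraMap ℂ R z := by
    show (algebraMap ℂ (Polynomial R) z).coeff 0 = _
    rw [Polynomial.algebraMap_apply, Polynomial.coeff_C_zero]
  simp only [h5, h6, map_one, mul_one] at h4
  rw [← IsScalarTower.algebraMap_apply ℂ R (FractionRing R)] at h4
  exact h4

/-- the model -/
noncomputable def pre [Nonempty C] (h : D.Laws) (h1 : S_EMBH) (h2 : S_AWCH) (h4 : S_PPRO)
    (h5 : S_PCOV) : PreModel D :=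
  have hne : ∀ c, Nonempty (Proj.basicOpen D.verGr (D.verMono (D.ν c) (D.d c) (h.ν_wt c))) :=
    U_ne h h1
  have hpr : IsProper (X := Proj D.verGr) D.projStr := (h4 R ι C r D h).1
  have hno : IsLocallyNoetherian (Proj D.verGr) := (h4 R ι C r D h).2
  { X := Proj D.verGr
    str := D.projStr
    emb := emb D h1
    emb_C := emb_C h h1
    U := fun c => Proj.basicOpen D.verGr (D.verMono (D.ν c) (D.d c) (h.ν_wt c))
    aff := fun c => Proj.isAffineOpen_basicOpen D.verGr _ (verMono_mem _ _ _) (h.dpos c)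
    cov := h5 R ι C r D h
    iso := fun c => RingEquiv.ofBijective
      ((sec D h1 (D.verMono (D.ν c) (D.d c) (h.ν_wt c))).codRestrict (D.chart c)
        fun s => (sec_range h h1 h2 c _).2 ⟨s, rfl⟩)
      ⟨fun a b hab => sec_inj D h1 _ (congrArg Subtype.val hab), fun y => by
        obtain ⟨s, hs⟩ := (sec_range h h1 h2 c _).1 y.2
        exact ⟨s, Subtype.ext hs⟩⟩
    iso_emb := fun c s => rfl }

end final

end PMOD

theorem pmod (h1 : S_EMBH) (h2 : S_AWCH) (h3 : S_PINT) (h4 : S_PPRO) (h5 : S_PCOV) : S_PMOD := by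
  intro R ι C r _ _ _ _ _ D h
  have hint : IsIntegral (Proj D.verGr) := h3 R ι C r D h
  refine ⟨{ toPreModel := PMOD.pre h h1 h2 h4 h5, inter := ?_ }⟩
  intro c c' x hx
  have h6 : ∀ a : FractionRing R, (PMOD.pre h h1 h2 h4 h5).unitAt x a ↔ PMOD.un D h1 x a := by
    intro a
    constructor
    · rintro ⟨s, hs, he⟩
      exact ⟨PMOD.vl D.verGr x s, hs.map _, (PMOD.emb_alg D h1 x s).symm.trans he⟩
    · rintro ⟨t, ht, he⟩
      obtain ⟨s, rfl⟩ := PMOD.vl_surj D.verGr x t
      refine ⟨s, ?_, (PMOD.emb_alg D h1 x s).trans he⟩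
      exact (MulEquiv.isUnit_map (RingEquiv.ofBijective (PMOD.vl D.verGr x)
        ⟨PMOD.vl_inj D.verGr x, PMOD.vl_surj D.verGr x⟩)).1 ht
  have h7 := PMOD.un_inter h h1 x c c' hx
  simp only [h6]
  exact h7

end FCB
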